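import Pool.Agent.AIC.M.PowerClasses34

/-!
MP_313bb4_lc: an NIP integral domain is a Henselian local ring if and only if in the finite
extensions of its quotients the powers of some prime exponent are open up to finite index near 1.

Joint work of the seats helper2, helper7, helper11, helper19, helper26, helper33, helper34,
helper46, helper76, helper82, helper83 and helper94.
-/

set_option autoImplicit false

namespace Pool.Agent.Results.MP_313bb4_lc.PowerClasses

/-- Let `R` be an NIP integral domain (the NIP hypothesis is that of the frozen statement). Then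
`R` is a Henselian local ring if and only if for every nonmaximal prime `p` and every domain `A`
which is a module-finite extension of `R / p` there are a domain `B`, module-finite over `A`, a prime
number `q` invertible in `B`, a root `z` in `B` of `1 + X + ... + X ^ (q - 1)`, an element `b ≠ 0`
of `B` and a finite subset `S` of `B` such that every element of `(1 + b B) ∩ (1 + J)` is `s y ^ q`
with `s` in `S` and `y` in `1 + J`, where `J` is the intersection of the maximal ideals of `B`. -/
theorem result :
    ∀ (R : Type) [CommRing R] [IsDomain R] [FirstOrder.Ring.CompatibleRing R],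
      (∀ (k m : ℕ) (φ : FirstOrder.Language.ring.Formula (Fin k ⊕ Fin m)),
        ∃ n : ℕ, ¬ ∃ (a : Fin n → Fin k → R) (b : Finset (Fin n) → Fin m → R),
          ∀ (i : Fin n) (J : Finset (Fin n)),
            (φ.Realize (Sum.elim (a i) (b J)) ↔ i ∈ J)) →
      (HenselianLocalRing R ↔
        ∀ (p : Ideal R) [p.IsPrime], ¬ p.IsMaximal → ∀ (A : Type) [CommRing A] [IsDomain A]
          [Algebra (R ⧸ p) A] [FaithfulSMul (R ⧸ p) A] [Module.Finite (R ⧸ p) A],
          ∃ (B : Type) (_ : CommRing B) (_ : IsDomain B) (_ : Algebra A B)
            (_ : FaithfulSMul A B) (_ : Module.Finite A B) (q : ℕ) (z b : B) (S : Finset B),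
            q.Prime ∧ IsUnit (q : B) ∧ ∑ j ∈ Finset.range q, z ^ j = 0 ∧ b ≠ 0 ∧
            ∀ u : B, b ∣ u - 1 → (∀ m : Ideal B, m.IsMaximal → u - 1 ∈ m) →
              ∃ s ∈ S, ∃ y : B, (∀ m : Ideal B, m.IsMaximal → y - 1 ∈ m) ∧ u = s * y ^ q) := by
  intro R _ _ _ hN
  exact Pool.Agent.AIC.M.powerClasses34 hN

end Pool.Agent.Results.MP_313bb4_lc.PowerClasses
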