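import Pool.Agent.AIC.FinOver83

/-!
MP_313bb4_lc: an NIP domain of finite Krull dimension (more generally, in the class `InC` below) is
a henselian local ring unless a finite extension of the fraction field of one of its quotient
domains has two non-henselian valuation rings of rank one with NIP intersection.
-/

set_option autoImplicit false

namespace Pool.Agent.Results.MP_313bb4_lc.RankOneValuations

open FirstOrder FirstOrder.Ring

/-- The ring `A` is NIP in the language of rings: for its structure in this language (there is
only one that is compatible with the ring operations) the hypothesis of the frozen statement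
holds, word for word. -/
def NIP (A : Type) [CommRing A] : Prop :=
  ∃ _ : CompatibleRing A,
    ∀ (k m : ℕ) (φ : FirstOrder.Language.ring.Formula (Fin k ⊕ Fin m)),
      ∃ n : ℕ, ¬ ∃ (a : Fin n → Fin k → A) (b : Finset (Fin n) → Fin m → A),
        ∀ (i : Fin n) (J : Finset (Fin n)),
          (φ.Realize (Sum.elim (a i) (b J)) ↔ i ∈ J)

/-- The class of domains: `R` is completely integrally closed, or whenever `q < Q` are primes of
`R` there is a prime `p` with `q < p ≤ Q` and no prime strictly between `q` and `p` (for example:
`R` of finite Krull dimension, or without infinite strictly descending sequences of primes). -/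
def InC (R : Type) [CommRing R] [IsDomain R] : Prop :=
  completeIntegralClosure R (FractionRing R) = ⊥ ∨
    ∀ q Q : Ideal R, q.IsPrime → Q.IsPrime → q < Q →
      ∃ p : Ideal R, p.IsPrime ∧ q < p ∧ p ≤ Q ∧
        ∀ n : Ideal R, n.IsPrime → q < n → n ≤ p → n = p

/-- `V` is a valuation ring of rank one of the field `K` (it is not `K`, and no valuation ring of
`K` lies strictly between `V` and `K`), it is NIP as a ring and it is not henselian. -/
def Bad (K : Type) [Field K] (V : ValuationSubring K) : Prop :=
  V ≠ ⊤ ∧ (∀ U : ValuationSubring K, V < U → U = ⊤) ∧ NIP V ∧ ¬ HenselianLocalRing V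

/-- The field `L` is, through a ring homomorphism `f : R → L`, a finite extension of the fraction
field of the domain `f(R)` (finitely many elements `e i` of `L` span it over that fraction field),
and it has two different bad valuation rings `V`, `W` which contain `f(R)` and whose intersection
is NIP. -/
def BadPair (R L : Type) [CommRing R] [Field L] : Prop :=
  ∃ (f : R →+* L) (V W : ValuationSubring L),
    (∃ (n : ℕ) (e : Fin n → L), ∀ y : L, ∃ (d : R) (c : Fin n → R),
      f d ≠ 0 ∧ f d * y = ∑ i, f (c i) * e i) ∧
    (∀ x : R, f x ∈ V ∧ f x ∈ W) ∧ V ≠ W ∧ Bad L V ∧ Bad L W ∧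
    NIP (V.toSubring ⊓ W.toSubring : Subring L)

/-- An NIP domain `R` in the class is a henselian local ring, or there are a prime `q` of `R` (the
kernel of `f`), a finite extension `L` of the fraction field of `R / q` and two different rank one
valuation rings `V`, `W` of `L`, both containing `R / q`, such that `V`, `W` and `V ∩ W` are NIP
and neither `V` nor `W` is henselian. -/
theorem result :
    ∀ (R : Type) [CommRing R] [IsDomain R], NIP R → InC R →
      (HenselianLocalRing R ∨ ∃ (L : Type) (_ : Field L), BadPair R L) := by
  intro R _ _ hN hC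
  obtain ⟨cR, hN⟩ := hN
  rcases Pool.Agent.AIC.rank_strong83 hN hC with h | h
  · exact Or.inl h
  · right
    obtain ⟨q, hq, L, i1, i2, i3, V, W, a1, a2, a3, a4, a5, ⟨a6, a7⟩, ⟨a8, a9⟩⟩ := h
    letI cL : CompatibleRing (V.toSubring ⊓ W.toSubring : Subring L) := compatibleRingOfRing _
    letI cV : CompatibleRing V := compatibleRingOfRing _
    letI cW : CompatibleRing W := compatibleRingOfRing _
    obtain ⟨n, e, he⟩ := Pool.Agent.AIC.finite_over83 (A := R ⧸ q) (L := L)
    refine ⟨L, i1, ((algebraMap (FractionRing (R ⧸ q)) L).comp
      (algebraMap (R ⧸ q) (FractionRing (R ⧸ q)))).comp (Ideal.Quotient.mk q), V, W,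
      ⟨n, e, fun y => ?_⟩, fun x => a4 _, a1, ⟨a2.1, a2.2, ⟨cV, a7⟩, a6⟩,
      ⟨a3.1, a3.2, ⟨cW, a9⟩, a8⟩, ⟨cL, a5⟩⟩
    obtain ⟨d, c, hd, hy⟩ := he y
    obtain ⟨d', rfl⟩ := Ideal.Quotient.mk_surjective d
    choose c' hc' using fun i => Ideal.Quotient.mk_surjective (I := q) (c i)
    refine ⟨d', c', hd, ?_⟩
    refine hy.trans (Finset.sum_congr rfl fun i _ => ?_)
    rw [← hc' i]
    rfl

end Pool.Agent.Results.MP_313bb4_lc.RankOneValuations
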