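import Pool.Agent.AIC.FinalChain95
import Pool.Agent.AIC.M.LocMF46

/-!
MP_313bb4_lc: an NIP integral domain, with a condition on ascending sequences of primes with
infinitely branched quotients (void for integrally closed domains and under the ascending chain
condition on primes), whose residue fields at the nonmaximal primes are henselian up to a finite
extension or have finitely many power classes, is a henselian local ring.
-/

set_option autoImplicit false

namespace Pool.Agent.Results.MP_313bb4_lc.ResidueFields

/-- Let `R` be an NIP domain (the NIP hypothesis is that of the frozen statement). Call a domain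
`D` infinitely branched if infinitely many primes of its integral closure (in its fraction field)
lie over one prime of `D`. Suppose that there is no infinite strictly ascending sequence of primes
`0 = p 0 < p 1 < ...` of `R` with all `R / p n` infinitely branched (for example: `R` is integrally
closed, of any Krull dimension; or `R` has the ascending chain condition on primes, as in finite
Krull dimension), and that for every prime ideal `q` which is not maximal either some finite
extension of the fraction field of `R / q` carries a nontrivial henselian valuation ring, or over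
every finite extension `L` of that fraction field there are three different primes `l` such that
some finite extension `F` of `L` has a root of `1 + X + ... + X ^ (l - 1)` and only finitely many
classes modulo `l`-th powers. Then `R` is a henselian local ring. -/
theorem result :
    ∀ (R : Type) [CommRing R] [IsDomain R] [FirstOrder.Ring.CompatibleRing R],
      (∀ (k m : ℕ) (φ : FirstOrder.Language.ring.Formula (Fin k ⊕ Fin m)),
        ∃ n : ℕ, ¬ ∃ (a : Fin n → Fin k → R) (b : Finset (Fin n) → Fin m → R),
          ∀ (i : Fin n) (J : Finset (Fin n)),
            (φ.Realize (Sum.elim (a i) (b J)) ↔ i ∈ J)) →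
      (¬ ∃ p : ℕ → Ideal R, p 0 = ⊥ ∧ StrictMono p ∧ ∀ n, ∃ _ : (p n).IsPrime,
        ∃ P : Ideal (R ⧸ p n), P.IsPrime ∧
          {N : Ideal (integralClosure (R ⧸ p n) (FractionRing (R ⧸ p n))) | N.IsPrime ∧
            N.comap (algebraMap (R ⧸ p n)
              (integralClosure (R ⧸ p n) (FractionRing (R ⧸ p n)))) = P}.Infinite) →
      (∀ (q : Ideal R) [q.IsPrime], ¬ q.IsMaximal →
        (∃ (L : Type) (_ : Field L) (_ : Algebra (FractionRing (R ⧸ q)) L)
          (_ : FiniteDimensional (FractionRing (R ⧸ q)) L) (O : ValuationSubring L),
          O ≠ ⊤ ∧ HenselianLocalRing O) ∨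
        (∀ (L : Type) [Field L] [Algebra (FractionRing (R ⧸ q)) L]
          [FiniteDimensional (FractionRing (R ⧸ q)) L],
          ∃ l : Fin 3 → ℕ, Function.Injective l ∧ ∀ i, (l i).Prime ∧
            ∃ (F : Type) (_ : Field F) (_ : Algebra L F) (_ : FiniteDimensional L F),
              (∃ ζ : F, ∑ j ∈ Finset.range (l i), ζ ^ j = 0) ∧
              ∃ S : Set F, S.Finite ∧ ∀ x : F, ∃ s ∈ S, ∃ y : F, x = s * y ^ (l i))) →
      HenselianLocalRing R := by
  intro R _ _ _ hN hchain hH
  refine Pool.Agent.AIC.chain_final95 Pool.Agent.AIC.pairM46' hN (fun q hq hqm => ?_) hchain
  rcases hH q hqm with h | h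
  · exact Or.inl h
  · exact Or.inr ⟨h, Or.inl trivial⟩

end Pool.Agent.Results.MP_313bb4_lc.ResidueFields
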