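import Pool.Agent.AIC.M.TheoremSE76

/-!
MP_313bb4_lc: a strongly dependent integral domain with roots of unity of infinitely many prime
orders in its residue fields, or in those of a finite extension, is a henselian local ring.
-/

set_option autoImplicit false

namespace Pool.Agent.Results.MP_313bb4_lc.StronglyDependent

/-- Let `R` be an NIP domain (the NIP hypothesis is that of the frozen statement) whose theory is
strong: for all formulas `φ i (x, y)`, `i ∈ ℕ`, with `x` of a fixed length `k`, and all numbers `κ i`
there are `n` and `M` such that no parameters `b i j`, `i < n`, `j < M`, in `R` form an inp-pattern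
(in each row any `κ i` of the formulas `φ i (x, b i j)` are inconsistent, and every path
`φ i (x, b i (σ i))`, `i < n`, is consistent). Suppose that some domain `B`, finite over `R`, has
for infinitely many prime numbers `q` a maximal ideal `m` with a root of unity of order `q` in
`B / m`. Then `R` is a henselian local ring. -/
theorem result :
    ∀ (R : Type) [CommRing R] [IsDomain R] [FirstOrder.Ring.CompatibleRing R],
      (∀ (k m : ℕ) (φ : FirstOrder.Language.ring.Formula (Fin k ⊕ Fin m)),
        ∃ n : ℕ, ¬ ∃ (a : Fin n → Fin k → R) (b : Finset (Fin n) → Fin m → R),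
          ∀ (i : Fin n) (J : Finset (Fin n)),
            (φ.Realize (Sum.elim (a i) (b J)) ↔ i ∈ J)) →
      (∀ (k : ℕ) (m κ : ℕ → ℕ)
        (φ : (i : ℕ) → FirstOrder.Language.ring.Formula (Fin k ⊕ Fin (m i))),
        ∃ n M : ℕ, ¬ ∃ b : (i : Fin n) → Fin M → Fin (m i) → R,
          (∀ (i : Fin n) (J : Finset (Fin M)), κ i ≤ J.card →
            ¬ ∃ a : Fin k → R, ∀ j ∈ J, (φ i).Realize (Sum.elim a (b i j))) ∧
          ∀ σ : Fin n → Fin M, ∃ a : Fin k → R, ∀ i : Fin n,
            (φ i).Realize (Sum.elim a (b i (σ i)))) →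
      (∃ (B : Type) (_ : CommRing B) (_ : IsDomain B) (_ : Algebra R B) (_ : FaithfulSMul R B)
        (_ : Module.Finite R B),
        {q : ℕ | q.Prime ∧ ∃ m : Ideal B, m.IsMaximal ∧
          ∃ x : B, x ^ q - 1 ∈ m ∧ x - 1 ∉ m}.Infinite) →
      HenselianLocalRing R := by
  rintro R _ _ _ hN hS ⟨B, _, _, _, _, _, hinf⟩
  exact Pool.Agent.AIC.M.theoremSE76 hN hS B hinf

end Pool.Agent.Results.MP_313bb4_lc.StronglyDependent
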